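import Pool.Agent.N112.PR.Main

/-!
# The polynomial Freiman-Ruzsa conjecture: reduction to the integers and to a rank statement in
finite groups of odd order

`Q1For C Γ` says that Q1 holds with the constant `C` for the finite subsets of the group `Γ`
(`Concl C K A`, of the starting library, is the conclusion of Q1 for the set `A`: `A` is covered by
`C K ^ C` translates of a centred convex coset progression of dimension at most `C log (2 K)` and
volume at most `|A|`).

`WeakN n Γ`, the weak form of Q1 for the group `Γ`, is a statement about ranks only, without convex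
bodies: each nonempty finite `A ⊆ Γ` with `|A + A| ≤ K |A|` is covered by `n K ^ n` cosets of a subgroup
`H + ⟨S⟩`, where `H` is a finite subgroup with `|A + H| ≤ n K ^ n |A|` and `|S| ≤ n log (2 K)`.

1. Q1 for the integers and the weak form for a group `Γ` imply Q1 for `Γ`; Q1 for `Γ` implies the weak
   form for `Γ`.
2. The weak form for the finite groups of odd order implies the weak form for all abelian groups. So Q1
   for all abelian groups is equivalent to Q1 for the single group `ℤ` together with the weak form for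
   finite groups of odd order; and it is equivalent to Q1 for the finite groups of odd order.
3. Q1 for `ℤ` is equivalent to Q1 for the cyclic groups `ℤ/M`, `M ∈ 𝓜`, for each infinite set `𝓜`, and
   to Q1 for all abelian groups whose elements of odd order are killed by `m` (for instance for all
   2-groups, whatever their exponent), for each `m`.
4. Unconditionally, polynomial rectification modulo a finite subgroup: for each finite nonempty `A`
   with `|A + A| ≤ K |A|` in an abelian group `Γ` and each `s` there are a finite subgroup `H` with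
   `|A + H| ≤ 2 K ^ 370 |A|`, a number `d ≤ 480 log K + 1`, a set `X` of at least
   `|A| / (K ^ 185 (s + 3) ^ d |H|)` pairs `(x, o)`, `x ∈ ℤ ^ d`, `o ∈ Γ` of odd order, and a map
   `(x, o) ↦ g + ψ x + o`, `ψ` a homomorphism, which maps `X` into `A + H`, such that, modulo `H`, it is
   injective on `X` and different sums of `s` elements have different images (a Freiman isomorphism of
   order `s`, modulo `H`). If `Γ` has no elements of odd order then `o = 0` and `X ⊆ ℤ ^ d`.

Proof. In a group generated by `d` elements (and a subgroup `O`) the shortest representatives in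
`ℤ ^ d`, modulo the lattice of relations, of the elements of a set lie in the Voronoi cell of this lattice;
it is the union of `(s + 3) ^ d` smaller cells, in each of which sums of `s` elements have different
images; the count uses only classes modulo a multiple of the lattice. The weak Marton theorem of
the starting library makes `d = O(log K)`, up to elements of odd order, so that the loss is
polynomial. Finite groups of odd order enter as quotients of `ℤ ^ d × O`.
-/

set_option autoImplicit false

namespace Pool.Agent.Results.MP_dd2a7c_co.IntegersAndOddOrder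

open Finset Pool.Agent.N112.PR
open scoped Pointwise

universe u

theorem result :
    -- 1. one group
    (∀ (C : ℝ) (n : ℕ), ∃ C' : ℝ, Q1For C ℤ →
      ∀ (Γ : Type u) [AddCommGroup Γ] [DecidableEq Γ], WeakN n Γ → Q1For C' Γ) ∧
    (∀ C : ℝ, ∃ n : ℕ, ∀ (Γ : Type u) [AddCommGroup Γ] [DecidableEq Γ],
      Q1For C Γ → WeakN n Γ) ∧
    -- 2. all groups
    (∀ n : ℕ, ∃ m : ℕ,
      (∀ (G : Type u) [AddCommGroup G] [DecidableEq G] [Finite G], Odd (Nat.card G) → WeakN n G) →
      ∀ (Γ : Type u) [AddCommGroup Γ] [DecidableEq Γ], WeakN m Γ) ∧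
    ((∃ C : ℝ, ∀ (Γ : Type u) [AddCommGroup Γ] [DecidableEq Γ], Q1For C Γ) ↔
      (∃ C : ℝ, Q1For C ℤ) ∧ ∃ n : ℕ, ∀ (G : Type u) [AddCommGroup G] [DecidableEq G] [Finite G],
        Odd (Nat.card G) → WeakN n G) ∧
    ((∃ C : ℝ, ∀ (Γ : Type u) [AddCommGroup Γ] [DecidableEq Γ], Q1For C Γ) ↔
      ∃ C : ℝ, ∀ (G : Type u) [AddCommGroup G] [DecidableEq G] [Finite G],
        Odd (Nat.card G) → Q1For C G) ∧
    -- 3. the integers
    (∀ 𝓜 : Set ℕ, 𝓜.Infinite →
      ((∃ C : ℝ, Q1For C ℤ) ↔ ∃ C : ℝ, ∀ M ∈ 𝓜, Q1For C (ZMod M))) ∧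
    (∀ m : ℕ, 0 < m → ((∃ C : ℝ, Q1For C ℤ) ↔
      ∃ C : ℝ, ∀ (Γ : Type u) [AddCommGroup Γ] [DecidableEq Γ],
        (∀ x : Γ, (∃ k : ℕ, Odd k ∧ k • x = 0) → m • x = 0) → Q1For C Γ)) ∧
    -- 4. rectification
    (∀ (Γ : Type u) [AddCommGroup Γ] [DecidableEq Γ] (K : ℝ) (A : Finset Γ), A.Nonempty →
      ((A + A).card : ℝ) ≤ K * A.card → ∀ s : ℕ,
      ∃ (H : AddSubgroup Γ) (d : ℕ) (ψ : (Fin d → ℤ) →+ Γ) (g : Γ)
        (X : Finset ((Fin d → ℤ) × Γ)), Finite H ∧
        (((A : Set Γ) + (H : Set Γ)).ncard : ℝ) ≤ 2 * K ^ 370 * A.card ∧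
        (d : ℝ) ≤ 480 * Real.log K + 1 ∧
        (A.card : ℝ) ≤ K ^ 185 * (s + 3) ^ d * (Nat.card H * X.card) ∧
        (∀ p ∈ X, p.2 ∈ oddPart Γ ∧ ∃ a ∈ A, a - (g + ψ p.1 + p.2) ∈ H) ∧
        (∀ p ∈ X, ∀ q ∈ X, (ψ p.1 + p.2) - (ψ q.1 + q.2) ∈ H → p = q) ∧
        ∀ u v : Fin s → (Fin d → ℤ) × Γ, (∀ i, u i ∈ X) → (∀ i, v i ∈ X) →
          ∑ i, (ψ (u i).1 + (u i).2) - ∑ i, (ψ (v i).1 + (v i).2) ∈ H →
          ∑ i, (u i).1 = ∑ i, (v i).1 ∧ ∑ i, (u i).2 - ∑ i, (v i).2 ∈ H) :=
  ⟨q1_pointwise.{u}, weak_of_q1.{u}, weak_all.{u}, equiv_all.{u}, equiv_odd.{u}, equiv_cyc,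
    equiv_two.{u}, fun _ _ _ K A hA hK s => rectify K A hA hK s⟩

end Pool.Agent.Results.MP_dd2a7c_co.IntegersAndOddOrder
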