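import Pool.Agent.N112.WM.Main

/-!
# The polynomial Freiman-Ruzsa conjecture: only torsion at primes in a window matters

Let `A` be a finite nonempty subset of an abelian group with `|A + A| ≤ K |A|`.

`Q1For C Γ` says that Q1 holds with the constant `C` for the finite subsets of `Γ`; `Concl C K A` (of the
starting library) is the conclusion of Q1 for `A`: `A` is covered by `C K ^ C` translates of a centred
convex coset progression of dimension at most `C log (2 K)` and volume at most `|A|`.

`pPart P Γ` is the subgroup of the elements whose order is a product of primes `p` with `P p`.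
`WeakMod n K W A` is the weak (rank) form of Q1 for `A` modulo the subgroup `W`: `A` is covered by
`n K ^ n` cosets of `H + ⟨S⟩ + W`, with a finite subgroup `H` such that `|A + H| ≤ n K ^ n |A|` and with
`|S| ≤ n log (2 K)`. `WeakAt n K A` is the same with `W = 0`.

1. For `0 < η ≤ 1` and `p₀ ≥ 2` the set `A` is covered by `(2 K) ^ (30000 / η)` cosets of
   `H + ⟨S⟩ + (elements whose order has only prime factors < p₀)`, where
   `|A + H| ≤ (2 K) ^ (10 ^ 11 / η) |A|` and
   `|S| ≤ (10 ^ 11 / η) (log (2 K) + (log (2 K)) ^ (1 + η) / log p₀)`.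
2. Let `q ≥ 2` and `0 < η ≤ 1`. There is `n` such that every `A`, in every abelian group, satisfies the
   weak form with `n` modulo the elements whose order has only prime factors `p` in the window
   `p ∤ q`, `log p < (log (2 K)) ^ η`.
3. If the group has no elements of prime order in the window (for instance `(ℤ / p ^ k) ^ d` with `p ∣ q` or
   `log p ≥ (log (2 K)) ^ η`, and all products of such groups) then `A` has a piece which is, up to a loss
   of `n K ^ n (s + 3) ^ (n log (2 K))`, modulo a finite subgroup `H` with `|A + H| ≤ n K ^ n |A|`,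
   Freiman isomorphic of order `s` to a set of integer vectors of dimension `≤ n log (2 K)`; and Q1 for
   the single group `ℤ` implies the conclusion of Q1 for `A`.
4. Q1 for all abelian groups is equivalent to Q1 for `ℤ` together with the weak form for the finite
   groups whose order has only prime factors in the window, for each choice of `q ≥ 2`, `0 < η ≤ 1`.

Proof of 1. The cover by translates of a progression of the starting library (`W860.PC`) makes the
rank small in a finite group `G` in which `A` has density `exp (- O (log (2 K)) ^ (1 + η))`; this is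
applied to `A` and then to the large spectrum of `A` in the dual group, which is a set of small
doubling: the annihilator of the second subgroup is commensurable with `A`. For the primes
dividing `q` the method of Gowers, Green, Manners and Tao is used with multiplication by `q`. The two
are put together, and the two directions of 4 are connected, by shortest representatives modulo
the lattice of relations.
-/

set_option autoImplicit false

namespace Pool.Agent.Results.MP_dd2a7c_co.TorsionWindow

open Finset Pool.Agent.R92.Star Pool.Agent.N112.PR Pool.Agent.N112.WM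
open scoped Pointwise

universe u

theorem result :
    -- 1. explicit form
    (∀ (Γ : Type u) [AddCommGroup Γ] [DecidableEq Γ] (K : ℝ) (A : Finset Γ) (η : ℝ) (p₀ : ℕ),
      A.Nonempty → ((A + A).card : ℝ) ≤ K * A.card → 0 < η → η ≤ 1 → 2 ≤ p₀ →
      ∃ (H : AddSubgroup Γ) (S T : Finset Γ), Finite H ∧
        (((A : Set Γ) + (H : Set Γ)).ncard : ℝ) ≤ (2 * K) ^ (10 ^ 11 / η) * A.card ∧
        (S.card : ℝ) ≤ 10 ^ 11 / η *
          (Real.log (2 * K) + Real.log (2 * K) ^ (1 + η) / Real.log p₀) ∧
        (T.card : ℝ) ≤ (2 * K) ^ (30000 / η) ∧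
        ∀ a ∈ A, ∃ t ∈ T, ∃ o ∈ pPart (fun p => p < p₀) Γ,
          a - t - o ∈ H ⊔ AddSubgroup.closure (S : Set Γ)) ∧
    (∀ (q : ℕ) (η : ℝ), 2 ≤ q → 0 < η → η ≤ 1 →
      -- 2. the weak form modulo the torsion in the window
      (∃ n : ℕ, ∀ (Γ : Type u) [AddCommGroup Γ] [DecidableEq Γ] (K : ℝ) (A : Finset Γ),
        A.Nonempty → ((A + A).card : ℝ) ≤ K * A.card →
        WeakMod n K (pPart (fun p => ¬ p ∣ q ∧ Real.log p < Real.log (2 * K) ^ η) Γ) A) ∧
      -- 3. groups without torsion in the window
      (∃ n : ℕ, ∀ (Γ : Type u) [AddCommGroup Γ] [DecidableEq Γ] (K : ℝ) (A : Finset Γ) (s : ℕ),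
        A.Nonempty → ((A + A).card : ℝ) ≤ K * A.card →
        (∀ p : ℕ, p.Prime → ¬ p ∣ q → Real.log p < Real.log (2 * K) ^ η →
          ∀ x : Γ, p • x = 0 → x = 0) →
        ∃ (H : AddSubgroup Γ) (d : ℕ) (ψ : (Fin d → ℤ) →+ Γ) (g : Γ) (X : Finset (Fin d → ℤ)),
          Finite H ∧ (((A : Set Γ) + (H : Set Γ)).ncard : ℝ) ≤ n * K ^ n * A.card ∧
          (d : ℝ) ≤ n * Real.log (2 * K) ∧
          (A.card : ℝ) ≤ n * K ^ n * (s + 3) ^ d * (Nat.card H * X.card) ∧
          (∀ x ∈ X, ∃ a ∈ A, a - (g + ψ x) ∈ H) ∧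
          ∀ u v : Fin s → (Fin d → ℤ), (∀ i, u i ∈ X) → (∀ i, v i ∈ X) →
            ∑ i, ψ (u i) - ∑ i, ψ (v i) ∈ H → ∑ i, u i = ∑ i, v i) ∧
      (∀ C : ℝ, ∃ C' : ℝ, Q1For C ℤ →
        ∀ (Γ : Type u) [AddCommGroup Γ] [DecidableEq Γ] (K : ℝ) (A : Finset Γ), A.Nonempty →
        ((A + A).card : ℝ) ≤ K * A.card →
        (∀ p : ℕ, p.Prime → ¬ p ∣ q → Real.log p < Real.log (2 * K) ^ η →
          ∀ x : Γ, p • x = 0 → x = 0) →
        Concl C' K A) ∧
      -- 4. all groups
      ((∃ C : ℝ, ∀ (Γ : Type u) [AddCommGroup Γ] [DecidableEq Γ], Q1For C Γ) ↔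
        (∃ C : ℝ, Q1For C ℤ) ∧ ∃ n : ℕ,
          ∀ (G : Type u) [AddCommGroup G] [DecidableEq G] [Finite G] (K : ℝ) (A : Finset G),
            A.Nonempty → ((A + A).card : ℝ) ≤ K * A.card →
            (∀ p : ℕ, p.Prime → p ∣ Nat.card G → ¬ p ∣ q ∧
              Real.log p < Real.log (2 * K) ^ η) →
            WeakAt n K A)) := by
  refine ⟨weak_w.{u}, fun q η hq hη0 hη1 => ⟨?_, ?_, fun C => ?_,
    equiv_window weak_w.{u} weak_m.{u} q hq hη0 hη1⟩⟩
  · obtain ⟨n, hn⟩ := weak_mod weak_w.{u} weak_m.{u} q hq (c := 1) hη0 hη1 one_pos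
    refine ⟨n, fun Γ _ _ K A hA hK => ?_⟩
    have h := hn Γ K A hA hK
    simp only [one_mul] at h
    exact h
  · obtain ⟨n, hn⟩ := weak_large weak_w.{u} weak_m.{u} q hq (c := 1) hη0 hη1 one_pos
    refine ⟨n, fun Γ _ _ K A s hA hK htor => ?_⟩
    refine rect_at hA (hn Γ K A hA hK fun p hp hpq hlt => htor p hp hpq ?_) s
    rwa [one_mul] at hlt
  · obtain ⟨C', hC'⟩ := q1_large weak_w.{u} weak_m.{u} q hq (c := 1) hη0 hη1 one_pos C
    refine ⟨C', fun hZ Γ _ _ K A hA hK htor => ?_⟩
    refine hC' hZ Γ K A hA hK fun p hp hpq hlt => htor p hp hpq ?_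
    rwa [one_mul] at hlt

end Pool.Agent.Results.MP_dd2a7c_co.TorsionWindow
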