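import Pool.Agent.N149.Tow.Final2
set_option autoImplicit false

/-!
# Sets of small doubling are dense in towers of cosets of height O(log K)

Let `Γ` be ANY abelian group with ANY filtration `Γ = N₀ ≥ N₁ ≥ N₂ ≥ …`, `m N_j ≤ N_{j+1}`; main example:
`N_j = m ^ j Γ` (for instance `Γ = ℤ ^ d` with the `p`-adic filtration, or a group of exponent `m ^ n`).
Let `|A + A| ≤ K |A|`. There are scales `0 = i₀ < i₁ < …` and subgroups
`N_{i_{s+1}} ≤ Λ_s ≤ N_{i_s}`, the floors, only `r ≤ 160000000 log K + 2` of them non-trivial
(`IsTower`), however many scales there are, such that, with `E = 1000000 (⌊log₂ m⌋ + 1)`: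

1. Every iterated sumset `k A - l A` has a popular part `T` (the sums of at least
   `|A| ^ (k+l) / K ^ (E+k+l)` of the tuples) inside the tower (`Inside`): two elements of `T` which
   agree mod `N_{i_s}` agree mod `Λ_s`, for all `s`. So `T` is a tower: over each residue mod
   `N_{i_s}` it lies in ONE coset of `Λ_s`. The case `k = 1`, `l = 0` gives a part of `A` of size at
   least `|A| / K ^ (E+1)`. The groups `Λ_s` are the same for all `k`, `l`.
2. The tower is as small as it can be, at every scale: if `M_j = (Λ_s ∩ N_j) + N_{j+1}` is its `j`-th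
   layer (`i_s ≤ j < i_{s+1}`), then `∏_{j<n} |M_j / N_{j+1}|` is the number of residues of `A` mod
   `N_n` up to a factor `K ^ E`, for every `n`.
3. The layers almost increase: the product of all the indices `[m M_j : m M_j ∩ M_{j+1}]` is at most
   `K ^ E`.
4. If `N_j = m ^ j Γ` and `Γ` has no `m`-torsion (for example `Γ` torsion-free), then every layer has
   order at most `K ^ E` (dimension `O(log K)` over `𝔽_m` if `m` is prime), the product of the
   `[M_{j+1} : m M_j ∩ M_{j+1}]` is at most `K ^ E`, and `M_{j+1} = m M_j` for all but `O(log K)` of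
   the scales `j`.

Convex coset progressions of dimension `O(log K)` have exactly this form: one floor for each of the
side lengths. So this is the statement of the conjecture seen through all the groups `Γ / m ^ j Γ` at
once, with polynomial bounds. The exponents do not depend on the number of scales. For one scale
(`N₁ = 0`, `m Γ = 0`) 1. and 2. are the theorem for bounded exponent. In groups of exponent `m ^ n` that
theorem has an exponent of the order of `n log m`, and one coset cannot do better than that; here it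
is `O(log m)`. In `ℤ`, with `m = p` prime, the layers are `0` or `𝔽_p`: `A` has a subset of size at
least `|A| / K ^ (E+1)` such that the base `p` digits of its elements in the positions outside
`O(log K)` intervals are functions of the lower digits, and the intervals have
`log_p |A| + O(log K)` positions in total.

Proof. The entropic doubling of `X` mod `N`, `X` uniform on `A`, increases by at most `2 log K` in
total along the filtration. So the scales can be cut into `O(log K)` blocks which are single scales
or have a total increase below an absolute constant. In a block of the second kind a conditional form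
of the 99 per cent theorem (proved here: Hellinger distances of translates, and a Doeblin minorisation)
gives `Λ_s` without any loss from the exponent of the block; for a single scale one uses the theorem
for exponent `m`. In both cases the loss is linear in the increase, so that the losses add up to
`O(log m log K)`. The tower is chosen floor by floor by a greedy choice, with a loss equal to the sum of
the conditional entropies. For 3. the entropy of `X - m X'` is compared with that of `X` layer by layer.
-/

open scoped Pointwise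

namespace Pool.Agent.Results.MP_dd2a7c_co.TowersOfLogHeight

/-- The floors `N (i (s+1)) ≤ Λ s ≤ N (i s)`, of finite index over `N (i (s+1))`; the floors
`s ≥ r` are trivial: they consist of one scale, and `Λ s = N (i (s+1))`. -/
structure IsTower {Γ : Type*} [AddCommGroup Γ] (N : ℕ → AddSubgroup Γ) (i : ℕ → ℕ)
    (Λ : ℕ → AddSubgroup Γ) (r : ℕ) : Prop where
  zero : i 0 = 0
  mono : StrictMono i
  lower : ∀ s, N (i (s + 1)) ≤ Λ s
  upper : ∀ s, Λ s ≤ N (i s)
  fin : ∀ s, (N (i (s + 1))).relIndex (Λ s) ≠ 0
  trivial_of_le : ∀ s, r ≤ s → i (s + 1) = i s + 1 ∧ Λ s = N (i (s + 1))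

/-- `T` is inside the tower: elements of `T` that agree mod `N (i s)` agree mod `Λ s`. -/
def Inside {Γ : Type*} [AddCommGroup Γ] (N : ℕ → AddSubgroup Γ) (i : ℕ → ℕ)
    (Λ : ℕ → AddSubgroup Γ) (T : Set Γ) : Prop :=
  ∀ t ∈ T, ∀ t' ∈ T, ∀ s, t - t' ∈ N (i s) → t - t' ∈ Λ s

/-- the number of residues of `A` mod `N` -/
noncomputable def residues {Γ : Type*} [AddCommGroup Γ] (A : Finset Γ) (N : AddSubgroup Γ) : ℕ :=
  ((fun a : Γ => (a : Γ ⧸ N)) '' (A : Set Γ)).ncard

/-- the exponent -/
def E (m : ℕ) : ℕ := 1000000 * (Nat.log 2 m + 1)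

theorem residues_eq {Γ : Type*} [AddCommGroup Γ] (A : Finset Γ) (N : AddSubgroup Γ) :
    residues A N = N149.Tow.nres A N := by
  classical
  unfold residues N149.Tow.nres
  rw [← Set.ncard_coe_finset, Finset.coe_image]

theorem result {Γ : Type*} [AddCommGroup Γ] [DecidableEq Γ] (m : ℕ) (hm : 0 < m)
    (N : ℕ → AddSubgroup Γ) (h0 : N 0 = ⊤) (hN : ∀ j, N (j + 1) ≤ N j)
    (hmN : ∀ j, ∀ x ∈ N j, m • x ∈ N (j + 1))
    (K : ℝ) (A : Finset Γ) (hA : A.Nonempty) (hK : ((A + A).card : ℝ) ≤ K * (A.card : ℝ)) :
    ∃ (r : ℕ) (i : ℕ → ℕ) (Λ M : ℕ → AddSubgroup Γ),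
      -- the number of floors
      (r : ℝ) ≤ 160000000 * Real.log K + 2 ∧ IsTower N i Λ r ∧
      -- the layers
      (∀ s j, i s ≤ j → j < i (s + 1) → M j = (Λ s ⊓ N j) ⊔ N (j + 1)) ∧
      -- 1. the iterated sumsets are in the tower
      (∀ k l : ℕ, 1 ≤ k → ∃ T : Set Γ, Inside N i Λ T ∧
        (A.card : ℝ) ^ (k + l) ≤ K ^ (E m + k + l) *
          (Nat.card {p : (Fin k → A) × (Fin l → A) //
            ∑ i, (p.1 i : Γ) - ∑ i, (p.2 i : Γ) ∈ T} : ℝ)) ∧
      -- 2. the sizes
      (∀ n, ∏ j ∈ Finset.range n, ((N (j + 1)).relIndex (M j) : ℝ) ≤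
          K ^ E m * residues A (N n) ∧
        (residues A (N n) : ℝ) ≤
          K ^ E m * ∏ j ∈ Finset.range n, ((N (j + 1)).relIndex (M j) : ℝ)) ∧
      -- 3. consecutive layers
      (∀ j, (M (j + 1)).relIndex ((M j).map (nsmulAddMonoidHom (α := Γ) m)) ≠ 0) ∧
      (∀ n, ∏ j ∈ Finset.range n,
        ((M (j + 1)).relIndex ((M j).map (nsmulAddMonoidHom (α := Γ) m)) : ℝ) ≤ K ^ E m) ∧
      -- 4. groups without `m`-torsion
      ((∀ x : Γ, m • x = 0 → x = 0) →
        (∀ j, N (j + 1) = (N j).map (nsmulAddMonoidHom (α := Γ) m)) →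
        (∀ j, ((N (j + 1)).relIndex (M j) : ℝ) ≤ K ^ E m) ∧
        (∀ j, ((M j).map (nsmulAddMonoidHom (α := Γ) m)).relIndex (M (j + 1)) ≠ 0) ∧
        (∀ n, ∏ j ∈ Finset.range n,
          (((M j).map (nsmulAddMonoidHom (α := Γ) m)).relIndex (M (j + 1)) : ℝ) ≤ K ^ E m) ∧
        (∀ S : Finset ℕ, (∀ j ∈ S, M (j + 1) ≠ (M j).map (nsmulAddMonoidHom (α := Γ) m)) →
          (S.card : ℝ) * Real.log 2 ≤ 2 * (E m * Real.log K))) := by
  rename_i d
  have hd : d = (fun a b => Classical.propDecidable (a = b)) := Subsingleton.elim _ _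
  subst hd
  obtain ⟨r, i, L, M, h1, h2, h3, h4, h5, h6, _, h8, _, h10, h11, h12, h13⟩ :=
    N149.Tow.towers m hm N h0 hN hmN K A hA hK
  simp only [residues_eq]
  exact ⟨r, i, L, M, h1, ⟨h2, h3, fun s => (h4 s).1, fun s => (h4 s).2.1, fun s => (h4 s).2.2, h5⟩,
    h8, h6, h10, h11, h12, h13⟩

end Pool.Agent.Results.MP_dd2a7c_co.TowersOfLogHeight
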